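import Mathlib
import Pool.Agent.TH723.BI.Lower

/-!
# Borel isomorphism of Borel graphs is `Σ¹₂`-complete

The definitions are in `Pool/Agent/TH723/BI/Defs.lean`.

Idea of the proof of hardness. Let `A` be `Σ¹₂` and write `a ∈ A ↔ ∃ y, T a y` is well-founded, for
trees `T a y` depending on `(a, y)` in a Borel way. For a code `c` of a Borel subset of the Baire
space call `(y, b, e, m)` a good witness for `(a, c)` if `e` evaluates the code `c` at the point
`c` with a truth value different from `b`, or if `m` maps the tree `T a y` into the tree of `c`.

* If `a ∉ A` there is no Borel function picking a good witness for every `c`: let `c` be a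
  (well-founded) code for the Borel set of all `c` with `b = 1`, and diagonalize.
* If `a ∈ A`, fix `y` with `T a y` well-founded. The set of `c` into whose tree `T a y` can be mapped
  is Borel, and on it `m` can be chosen in a Borel way; off this set `c` is well-founded of
  bounded rank and can be evaluated in a Borel way. So there is a Borel choice of good witnesses.

The graph `G a` has, for each code `c` and each good witness `w` for `(a, c)`, infinitely many copies
of a locally finite tree which codes `c` by its vertex degrees; `H a` has in addition one more copy
of the tree of `c` for each `c`. A Borel isomorphism from `H a` to `G a` gives a Borel choice of good witnesses,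
and such a choice allows to absorb the additional trees.
-/

set_option autoImplicit false

open Set MeasureTheory TopologicalSpace

namespace Pool.Agent.Results.MP_389802_lc.Sigma12Complete

open Pool.Agent.TH723.BI (Baire IsCode Sigma12 BorelGraph BorelIso TameForest ForestCodes isoRel)

/-- Let `X` be an uncountable Polish space, and let Borel subsets of `X × X` be coded in the standard
way by points of the Baire space, relative to any countable basis `U` of `X × X`. Then the relation
of Borel isomorphism on codes of Borel graphs on `X` is `Σ¹₂`-complete: it is `Σ¹₂`, and every
`Σ¹₂` subset `A` of every Polish space is the preimage of this relation under a Borel map all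
of whose values are pairs of codes of Borel graphs on `X`. These graphs can moreover be taken
locally finite and acyclic with smooth connectedness relation. -/
theorem result (X : Type) [TopologicalSpace X] [PolishSpace X] [MeasurableSpace X] [BorelSpace X]
    (hX : ¬ Countable X) (U : ℕ → Set (X × X)) (hU : IsTopologicalBasis (range U)) :
    Sigma12 (isoRel U) ∧
    ∀ (α : Type) [TopologicalSpace α] [PolishSpace α] [MeasurableSpace α] [BorelSpace α]
      (A : Set α), Sigma12 A → ∃ f : α → Baire × Baire, Measurable f ∧
        (∀ a, (f a).1 ∈ ForestCodes U ∧ (f a).2 ∈ ForestCodes U) ∧ ∀ a, a ∈ A ↔ f a ∈ isoRel U := by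
  have hU' : (Prod.instMeasurableSpace : MeasurableSpace (X × X)) =
      MeasurableSpace.generateFrom (range U) := by
    rw [← hU.borel_eq_generateFrom]
    exact BorelSpace.measurable_eq
  refine ⟨Pool.Agent.TH723.BI.sigma12_isoRel hX hU', ?_⟩
  intro α _ _ _ _ A hA
  exact Pool.Agent.TH723.BI.hard hX hU' hA

end Pool.Agent.Results.MP_389802_lc.Sigma12Complete
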